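import Mathlib

set_option autoImplicit false
set_option maxHeartbeats 400000

namespace Pool.Agent.Results.MP_9b1654_pr.MLFails

open Finset Filter Topology

/-- the pairs `u < v` of vertices of `[n]` -/
abbrev Pairs (n : ℕ) := {e : Fin n × Fin n // e.1 < e.2}

/-- a graph on `[n]`, given by the indicator of its edge set -/
abbrev Gr (n : ℕ) := Pairs n → Bool

/-- the edge probability between labels `i` and `j` -/
noncomputable def pe {k : ℕ} (M : Fin k → Fin k → ℝ) (n : ℕ) (i j : Fin k) : ℝ :=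
  min 1 (M i j / n)

/-- the likelihood `P(G | σ)` -/
noncomputable def lik {k n : ℕ} (M : Fin k → Fin k → ℝ) (σ : Fin n → Fin k) (G : Gr n) : ℝ :=
  ∏ e : Pairs n, if G e then pe M n (σ e.1.1) (σ e.1.2) else 1 - pe M n (σ e.1.1) (σ e.1.2)

open Classical in
/-- the probability of an event in `SBM(n, k, π, M)` -/
noncomputable def prob {k : ℕ} (π : Fin k → ℝ) (M : Fin k → Fin k → ℝ) (n : ℕ)
    (E : (Fin n → Fin k) → Gr n → Prop) : ℝ :=
  ∑ σ, ∑ G, if E σ G then (∏ v, π (σ v)) * lik M σ G else 0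

/-- the overlap of two labellings -/
noncomputable def ov {k n : ℕ} (s σ : Fin n → Fin k) : ℝ :=
  (univ.sup fun τ : Equiv.Perm (Fin k) => #{v | τ (s v) = σ v} : ℕ) / n

/-- the estimator achieves non-trivial correlation -/
def Achieves {k : ℕ} (π : Fin k → ℝ) (M : Fin k → Fin k → ℝ)
    (est : ∀ n, Gr n → Fin n → Fin k) : Prop :=
  ∃ ε > 0, Tendsto (fun n => prob π M n fun σ G => (⨆ i, π i) + ε ≤ ov (est n G) σ) atTop (𝓝 1)

/-- the estimator always outputs a labelling of maximum likelihood -/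
def IsML {k : ℕ} (M : Fin k → Fin k → ℝ) (est : ∀ n, Gr n → Fin n → Fin k) : Prop :=
  ∀ n G σ, lik M σ G ≤ lik M (est n G) G

theorem star {n : ℕ} (g : Fin n → Fin n → ℝ) (hg : ∀ a b, g a b = g b a) (u : Fin n) :
    ∏ e : Pairs n, (if e.1.1 = u ∨ e.1.2 = u then g e.1.1 e.1.2 else 1) =
      ∏ w, if w = u then 1 else g u w := by
  rw [← prod_subtype (univ.filter fun e : Fin n × Fin n => e.1 < e.2) (by simp)
    (fun e : Fin n × Fin n => if e.1 = u ∨ e.2 = u then g e.1 e.2 else 1), prod_filter]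
  have h1 : ∀ e : Fin n × Fin n, (if e.1 < e.2 then if e.1 = u ∨ e.2 = u then g e.1 e.2 else 1
      else 1) = (if e.1 = u then if u < e.2 then g u e.2 else 1 else 1) *
        (if e.2 = u then if e.1 < u then g u e.1 else 1 else 1) := by
    rintro ⟨a, b⟩
    by_cases ha : a = u <;> by_cases hb : b = u <;> simp [ha, hb, hg a]
  simp only [h1, prod_mul_distrib]
  rw [Fintype.prod_prod_type, Fintype.prod_prod_type_right]
  simp only [prod_ite_irrel, prod_const_one, prod_ite_eq', mem_univ, if_true]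
  rw [← prod_mul_distrib]
  refine prod_congr rfl fun w _ => ?_
  rcases lt_trichotomy w u with h | h | h
  · simp [h, h.ne, h.not_gt]
  · simp [h]
  · simp [h, h.ne', h.not_gt]

section
variable {k : ℕ} (π : Fin k → ℝ) (M : Fin k → Fin k → ℝ)

noncomputable def Ex (n : ℕ) (f : (Fin n → Fin k) → Gr n → ℝ) : ℝ :=
  ∑ σ, ∑ G, (∏ v, π (σ v)) * lik M σ G * f σ G

theorem Ex_sum {ι : Type} [Fintype ι] (n : ℕ) (f : ι → (Fin n → Fin k) → Gr n → ℝ) :
    Ex π M n (fun σ G => ∑ i, f i σ G) = ∑ i, Ex π M n (f i) := by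
  simp only [Ex, mul_sum]
  exact (sum_congr rfl fun σ _ => sum_comm).trans sum_comm

theorem Ex_lin (n : ℕ) (a b c : ℝ) (f g h : (Fin n → Fin k) → Gr n → ℝ) :
    Ex π M n (fun σ G => a * f σ G + b * g σ G + c * h σ G) =
      a * Ex π M n f + b * Ex π M n g + c * Ex π M n h := by
  simp only [Ex, mul_sum, ← sum_add_distrib]
  exact sum_congr rfl fun σ _ => sum_congr rfl fun G _ => by ring

theorem sumG {n : ℕ} (σ : Fin n → Fin k) (F : Pairs n → Bool → ℝ) :
    ∑ G : Gr n, lik M σ G * ∏ e, F e (G e) = ∏ e, (pe M n (σ e.1.1) (σ e.1.2) * F e true +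
      (1 - pe M n (σ e.1.1) (σ e.1.2)) * F e false) := by
  have := prod_univ_sum (fun _ : Pairs n => (univ : Finset Bool)) fun e b =>
    (if b then pe M n (σ e.1.1) (σ e.1.2) else 1 - pe M n (σ e.1.1) (σ e.1.2)) * F e b
  simp only [Fintype.piFinset_univ, prod_mul_distrib] at this
  simpa [lik] using this.symm

theorem sumS {n : ℕ} (H : Fin n → Fin k → ℝ) :
    ∑ σ : Fin n → Fin k, (∏ v, π (σ v)) * ∏ v, H v (σ v) = ∏ v, ∑ s, π s * H v s := by
  have := prod_univ_sum (fun _ : Fin n => (univ : Finset (Fin k))) fun v s => π s * H v s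
  simp only [Fintype.piFinset_univ, prod_mul_distrib] at this
  exact this.symm

/-- `v` has label `l` and, if `θ = 0`, is isolated -/
noncomputable def ind {n : ℕ} (l : Fin k) (θ : ℝ) (v : Fin n) (σ : Fin n → Fin k) (G : Gr n) : ℝ :=
  (if σ v = l then 1 else 0) * ∏ e : Pairs n, if e.1.1 = v ∨ e.1.2 = v then
    (if G e then θ else 1) else 1

variable {M}

theorem pe_symm (hM : ∀ i j, M i j = M j i) (n : ℕ) (i j : Fin k) : pe M n i j = pe M n j i := by
  rw [pe, pe, hM]

theorem E1 (hM : ∀ i j, M i j = M j i) {n : ℕ} (l : Fin k) (θ : ℝ) (u : Fin n) :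
    Ex π M n (ind l θ u) = π l * (∑ s, π s * (1 - (1 - θ) * pe M n l s)) ^ (n - 1) := by
  have h1 : ∀ σ : Fin n → Fin k, ∑ G, (∏ v, π (σ v)) * lik M σ G * ind l θ u σ G =
      (∏ v, π (σ v)) * ∏ v, if v = u then (if σ v = l then 1 else 0) else
        1 - (1 - θ) * pe M n l (σ v) := by
    intro σ
    by_cases h : σ u = l
    · simp only [ind, h, if_true, one_mul, mul_assoc, ← mul_sum]
      rw [sumG M σ fun e b => if e.1.1 = u ∨ e.1.2 = u then (if b then θ else 1) else 1]
      congr 1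
      refine Eq.trans (prod_congr rfl fun e _ => ?_) ((star (fun a b => 1 - (1 - θ) *
        pe M n (σ a) (σ b)) (fun a b => by rw [pe_symm hM]) u).trans (prod_congr rfl fun w _ => ?_))
      · split_ifs <;> simp_all
        ring
      · split_ifs <;> simp_all
    · refine Eq.trans ?_ (mul_eq_zero_of_right _ (prod_eq_zero (mem_univ u) (by simp [h]))).symm
      simp [ind, h]
  rw [Ex]
  simp only [h1]
  rw [sumS π fun v s => if v = u then (if s = l then 1 else 0) else 1 - (1 - θ) * pe M n l s,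
    ← mul_prod_erase _ _ (mem_univ u), prod_congr rfl fun v hv => by
      simp only [(mem_erase.1 hv).1, if_false]; rfl]
  simp

theorem E2 (hM : ∀ i j, M i j = M j i) {n : ℕ} (l : Fin k) (θ : ℝ) (hθ : θ * θ = θ)
    (u v : Fin n) (huv : u ≠ v) :
    Ex π M n (fun σ G => ind l θ u σ G * ind l θ v σ G) =
      π l * (π l * (1 - (1 - θ) * pe M n l l)) *
        (∑ s, π s * (1 - (1 - θ) * pe M n l s) ^ 2) ^ (n - 2) := by
  have h1 : ∀ σ : Fin n → Fin k, ∑ G, (∏ v, π (σ v)) * lik M σ G *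
      (ind l θ u σ G * ind l θ v σ G) =
      (∏ v, π (σ v)) * ∏ w, if w = u then (if σ w = l then 1 else 0) else
        if w = v then (if σ w = l then 1 - (1 - θ) * pe M n l (σ w) else 0) else
        (1 - (1 - θ) * pe M n l (σ w)) ^ 2 := by
    intro σ
    by_cases h : σ u = l
    · by_cases h' : σ v = l
      · conv_lhs => simp only [ind, h, h', if_true, one_mul, mul_assoc, ← mul_sum,
          ← prod_mul_distrib]
        rw [sumG M σ fun e b => (if e.1.1 = u ∨ e.1.2 = u then (if b then θ else 1) else 1) *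
          (if e.1.1 = v ∨ e.1.2 = v then (if b then θ else 1) else 1)]
        congr 1
        have s1 := star (fun a b => 1 - (1 - θ) * pe M n (σ a) (σ b))
          (fun a b => by rw [pe_symm hM]) u
        have s2 := star (fun a b => if a = u ∨ b = u then 1 else 1 - (1 - θ) * pe M n (σ a) (σ b))
          (fun a b => by simp only [pe_symm hM n (σ a), or_comm]) v
        have s3 := congrArg₂ (· * ·) s1 s2
        simp only [← prod_mul_distrib] at s3
        refine Eq.trans (prod_congr rfl fun e _ => ?_) (s3.trans (prod_congr rfl fun w _ => ?_))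
        · by_cases a1 : e.1.1 = u ∨ e.1.2 = u <;> by_cases a2 : e.1.1 = v ∨ e.1.2 = v <;>
            simp only [a1, a2, if_true, if_false, hθ, Bool.false_eq_true] <;> ring
        · by_cases a1 : w = u
          · simp [a1, h]
          · by_cases a2 : w = v
            · simp [a2, h, h', huv.symm]
            · simp [a1, a2, h, h', huv.symm, sq]
      · refine Eq.trans ?_
          (mul_eq_zero_of_right _ (prod_eq_zero (mem_univ v) (by simp [h', huv.symm]))).symm
        simp [ind, h']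
    · refine Eq.trans ?_ (mul_eq_zero_of_right _ (prod_eq_zero (mem_univ u) (by simp [h]))).symm
      simp [ind, h]
  rw [Ex]
  simp only [h1]
  rw [sumS π fun w s => if w = u then (if s = l then 1 else 0) else
      if w = v then (if s = l then 1 - (1 - θ) * pe M n l s else 0) else
      (1 - (1 - θ) * pe M n l s) ^ 2,
    ← mul_prod_erase _ _ (mem_univ u), ← mul_prod_erase _ _ (mem_erase.2 ⟨huv.symm, mem_univ v⟩),
    prod_congr rfl fun w hw => by
      simp only [(mem_erase.1 hw).1, (mem_erase.1 (mem_erase.1 hw).2).1, if_false]; rfl]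
  simp [huv.symm, card_erase_of_mem, mul_assoc, Nat.sub_sub]

theorem lik_nonneg (hM : ∀ i j, 0 ≤ M i j) {n : ℕ} (σ : Fin n → Fin k) (G : Gr n) :
    0 ≤ lik M σ G := by
  refine prod_nonneg fun e _ => ?_
  split_ifs
  · exact le_min zero_le_one (div_nonneg (hM _ _) (Nat.cast_nonneg n))
  · exact sub_nonneg.2 (min_le_left _ _)

variable {π}

theorem Ex_one (hπ : ∑ i, π i = 1) (n : ℕ) : Ex π M n (fun _ _ => 1) = 1 := by
  have h1 : ∀ σ : Fin n → Fin k, ∑ G : Gr n, lik M σ G = 1 := fun σ => by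
    simpa using sumG M σ fun _ _ => 1
  have h2 := sumS π (n := n) fun _ _ => 1
  simp only [Ex, mul_one, ← mul_sum, h1]
  simpa [hπ] using h2

theorem prob_le (h0 : ∀ i, 0 ≤ π i) (hM : ∀ i j, 0 ≤ M i j) {n : ℕ}
    (E : (Fin n → Fin k) → Gr n → Prop) (f : (Fin n → Fin k) → Gr n → ℝ)
    (h1 : ∀ σ G, 0 ≤ f σ G) (h2 : ∀ σ G, E σ G → 1 ≤ f σ G) : prob π M n E ≤ Ex π M n f := by
  refine sum_le_sum fun σ _ => sum_le_sum fun G _ => ?_
  have := mul_nonneg (prod_nonneg fun v (_ : v ∈ univ) => h0 (σ v)) (lik_nonneg hM σ G)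
  split_ifs with h
  · exact le_mul_of_one_le_right this (h2 σ G h)
  · exact mul_nonneg this (h1 σ G)

theorem prob_nonneg (h0 : ∀ i, 0 ≤ π i) (hM : ∀ i j, 0 ≤ M i j) {n : ℕ}
    (E : (Fin n → Fin k) → Gr n → Prop) : 0 ≤ prob π M n E := by
  refine sum_nonneg fun σ _ => sum_nonneg fun G _ => ?_
  split_ifs
  · exact mul_nonneg (prod_nonneg fun v _ => h0 (σ v)) (lik_nonneg hM σ G)
  · exact le_rfl

theorem prob_compl (hπ : ∑ i, π i = 1) {n : ℕ} (E : (Fin n → Fin k) → Gr n → Prop) :
    prob π M n E = 1 - prob π M n fun σ G => ¬ E σ G := by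
  rw [← Ex_one (M := M) hπ n, eq_sub_iff_add_eq]
  simp only [prob, Ex, ← sum_add_distrib]
  refine sum_congr rfl fun σ _ => sum_congr rfl fun G _ => ?_
  by_cases h : E σ G <;> simp [h]

theorem pow_lim (g : ℕ → ℝ) (t : ℝ) (hg : Tendsto (fun n : ℕ => n * g n) atTop (𝓝 t)) (j : ℕ) :
    Tendsto (fun n => (1 + g n) ^ (n - j)) atTop (𝓝 (Real.exp t)) := by
  have h0 : Tendsto g atTop (𝓝 0) := by
    refine (hg.div_atTop tendsto_natCast_atTop_atTop).congr' ?_
    filter_upwards [eventually_ne_atTop 0] with n hn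
    exact mul_div_cancel_left₀ _ (Nat.cast_ne_zero.2 hn)
  have h1 : Tendsto (fun n => 1 + g n) atTop (𝓝 1) := by simpa using h0.const_add 1
  have h2 := (Real.tendsto_one_add_pow_exp_of_tendsto hg).div (h1.pow j) (by simp)
  rw [one_pow, div_one] at h2
  refine h2.congr' ?_
  filter_upwards [eventually_ge_atTop j, h1.eventually_ne one_ne_zero] with n a1 a2
  exact (pow_sub₀ _ a2 a1).symm

theorem var_lim (hπ : ∑ i, π i = 1) (hs : ∀ i j, M i j = M j i) (l : Fin k)
    (hd : ∀ s, s ≠ l → M l s = 0) (θ : ℝ) (hθ : θ * θ = θ) :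
    Tendsto (fun n => Ex π M n fun σ G =>
      ((∑ v, ind l θ v σ G) / n - π l * Real.exp (-(π l * ((1 - θ) * M l l)))) ^ 2)
      atTop (𝓝 0) := by
  set x : ℕ → ℝ := fun n => (1 - θ) * pe M n l l with hx
  have h1 : Tendsto (fun n : ℕ => n * x n) atTop (𝓝 ((1 - θ) * M l l)) := by
    refine tendsto_const_nhds.congr' ?_
    filter_upwards [eventually_ne_atTop 0, (tendsto_const_div_atTop_nhds_zero_nat
      (M l l)).eventually_le_const one_pos] with n a1 a2
    have : (n : ℝ) ≠ 0 := Nat.cast_ne_zero.2 a1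
    simp only [hx, pe, min_eq_right a2]
    field_simp
  have h2 : Tendsto x atTop (𝓝 0) := by
    refine (h1.div_atTop tendsto_natCast_atTop_atTop).congr' ?_
    filter_upwards [eventually_ne_atTop 0] with n hn
    exact mul_div_cancel_left₀ _ (Nat.cast_ne_zero.2 hn)
  have h3 : ∀ (n : ℕ) (φ : ℝ → ℝ), φ 0 = 1 →
      ∑ s, π s * φ ((1 - θ) * pe M n l s) = 1 + π l * (φ (x n) - 1) := by
    intro n φ hφ
    have : ∑ s, π s * (φ ((1 - θ) * pe M n l s) - 1) = π l * (φ (x n) - 1) :=
      sum_eq_single l (fun s _ h => by simp [pe, hd s h, hφ]) (by simp)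
    rw [← this, ← hπ, ← sum_add_distrib, hπ]
    exact sum_congr rfl fun s _ => by ring
  have a1 := (pow_lim (fun n => π l * (1 - x n - 1)) (-(π l * ((1 - θ) * M l l)))
    ((h1.const_mul (π l)).neg.congr fun n => by ring) 1).const_mul (π l)
  have a2 := (((h2.const_sub 1).const_mul (π l)).const_mul (π l)).mul
    (pow_lim (fun n => π l * ((1 - x n) ^ 2 - 1))
      (π l * ((1 - θ) * M l l * (0 - 2)))
      (((h1.mul (h2.sub_const 2)).const_mul (π l)).congr fun n => by ring) 2)
  set m := π l * Real.exp (-(π l * ((1 - θ) * M l l))) with hm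
  have e : π l * (π l * (1 - 0)) * Real.exp (π l * ((1 - θ) * M l l * (0 - 2))) = m ^ 2 := by
    rw [hm, mul_pow, sq (Real.exp _), ← Real.exp_add]
    congr 1
    · ring
    · congr 1
      ring
  rw [e] at a2
  have a3 := (((a1.sub a2).div_atTop tendsto_natCast_atTop_atTop).add a2).add
    ((a1.const_mul (-2 * m)).add_const (m ^ 2))
  rw [show 0 + m ^ 2 + (-2 * m * m + m ^ 2) = 0 by ring] at a3
  refine a3.congr' ?_
  filter_upwards [eventually_ne_atTop 0] with n hn
  have hn' : (n : ℝ) ≠ 0 := Nat.cast_ne_zero.2 hn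
  have b1 : ∀ u : Fin n, Ex π M n (ind l θ u) = π l * (1 + π l * (1 - x n - 1)) ^ (n - 1) :=
    fun u => by rw [E1 π hs, h3 n (fun y => 1 - y) (by simp)]
  have b2 : ∀ u v : Fin n, Ex π M n (fun σ G => ind l θ u σ G * ind l θ v σ G) =
      π l * (π l * (1 - x n)) * (1 + π l * ((1 - x n) ^ 2 - 1)) ^ (n - 2) +
      if v = u then π l * (1 + π l * (1 - x n - 1)) ^ (n - 1) -
        π l * (π l * (1 - x n)) * (1 + π l * ((1 - x n) ^ 2 - 1)) ^ (n - 2) else 0 := by
    intro u v
    split_ifs with h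
    · rw [add_sub_cancel, ← b1 u, h]
      congr 1
      funext σ G
      simp only [ind]
      rw [mul_mul_mul_comm, ← prod_mul_distrib]
      congr 1
      · split_ifs <;> simp
      · refine prod_congr rfl fun e _ => ?_
        split_ifs <;> simp [hθ]
    · rw [add_zero, E2 π hs l θ hθ u v (Ne.symm h), h3 n (fun y => (1 - y) ^ 2) (by simp)]
  have b3 : Ex π M n (fun σ G => ((∑ v, ind l θ v σ G) / n - m) ^ 2) =
      (∑ u, ∑ v, Ex π M n (fun σ G => ind l θ u σ G * ind l θ v σ G)) / n ^ 2 -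
        2 * m * (∑ u, Ex π M n (ind l θ u)) / n + m ^ 2 * Ex π M n (fun _ _ => 1) := by
    simp only [← Ex_sum]
    have := Ex_lin π M n (1 / n ^ 2) (-(2 * m) / n) (m ^ 2)
      (fun σ G => ∑ u, ∑ v, ind l θ u σ G * ind l θ v σ G) (fun σ G => ∑ u, ind l θ u σ G)
      fun _ _ => 1
    refine Eq.trans ?_ (this.trans (by ring))
    congr 1
    funext σ G
    rw [← sum_mul_sum]
    ring
  rw [b3, Ex_one hπ]
  simp only [b1, b2, sum_add_distrib, sum_ite_eq', mem_univ, if_true, sum_const, card_univ,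
    Fintype.card_fin, nsmul_eq_mul]
  field_simp
  ring

theorem whp (h0 : ∀ i, 0 ≤ π i) (hM : ∀ i j, 0 ≤ M i j)
    (E : ∀ n, (Fin n → Fin k) → Gr n → Prop) (f g h : ∀ n, (Fin n → Fin k) → Gr n → ℝ)
    (hf : Tendsto (fun n => Ex π M n fun σ G => f n σ G ^ 2) atTop (𝓝 0))
    (hg : Tendsto (fun n => Ex π M n fun σ G => g n σ G ^ 2) atTop (𝓝 0))
    (hh : Tendsto (fun n => Ex π M n fun σ G => h n σ G ^ 2) atTop (𝓝 0))
    (hE : ∀ᶠ n in atTop, ∀ σ G, |f n σ G| < 1 / 100 → |g n σ G| < 1 / 100 → |h n σ G| < 1 / 100 →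
      ¬ E n σ G) : Tendsto (fun n => prob π M n (E n)) atTop (𝓝 0) := by
  have h1 := ((hf.const_mul 10000).add (hg.const_mul 10000)).add (hh.const_mul 10000)
  simp only [mul_zero, add_zero, ← Ex_lin] at h1
  refine squeeze_zero' (Eventually.of_forall fun n => prob_nonneg h0 hM _) ?_ h1
  filter_upwards [hE] with n hn
  refine prob_le h0 hM _ _ (fun σ G => by positivity) fun σ G h2 => ?_
  by_contra h3
  have a : ∀ x : ℝ, 10000 * x ^ 2 < 1 → |x| < 1 / 100 := fun x hx =>
    abs_lt_of_sq_lt_sq (by linarith) (by norm_num)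
  refine hn σ G (a _ ?_) (a _ ?_) (a _ ?_) h2 <;>
    nlinarith [sq_nonneg (f n σ G), sq_nonneg (g n σ G), sq_nonneg (h n σ G)]

end

/-- `v` is isolated -/
def Iso {n : ℕ} (G : Gr n) (v : Fin n) : Prop := ∀ e : Pairs n, e.1.1 = v ∨ e.1.2 = v → G e = false

instance {n : ℕ} (G : Gr n) (v : Fin n) : Decidable (Iso G v) := by
  unfold Iso
  infer_instance

theorem ind_zero {k n : ℕ} (l : Fin k) (σ : Fin n → Fin k) (G : Gr n) :
    ∑ v, ind l 0 v σ G = #{v | σ v = l ∧ Iso G v} := by
  rw [card_filter]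
  push_cast
  refine sum_congr rfl fun v _ => ?_
  by_cases h : Iso G v
  · rw [ind, prod_eq_one fun e _ => by
      split_ifs with a1 a2
      · simp [h e a1] at a2
      · rfl
      · rfl]
    simp [h]
  · obtain ⟨e, a1, a2⟩ : ∃ e : Pairs n, (e.1.1 = v ∨ e.1.2 = v) ∧ G e = true := by
      simpa [Iso] using h
    rw [ind, prod_eq_zero (mem_univ e) (by simp [a1, a2])]
    simp [h]

theorem ind_one {k n : ℕ} (l : Fin k) (σ : Fin n → Fin k) (G : Gr n) :
    ∑ v, ind l 1 v σ G = #{v | σ v = l} := by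
  simp [ind]

noncomputable def M0 (i j : Fin 3) : ℝ := if i = j then (if i = 2 then 20 else 1 / 40) else 0

theorem M0_symm (i j : Fin 3) : M0 i j = M0 j i := by
  by_cases h : i = j
  · rw [h]
  · simp [M0, h, Ne.symm h]

theorem M0_nonneg (i j : Fin 3) : 0 ≤ M0 i j := by
  unfold M0
  split_ifs <;> norm_num

theorem ml_bal {n : ℕ} (hn : 20 < n) (G : Gr n) (s : Fin n → Fin 3)
    (hs : ∀ σ, lik M0 σ G ≤ lik M0 s G) (v : Fin n) (hv : Iso G v) :
    2 * #{w | s w = s v} ≤ n + 1 := by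
  have hn' : (20 : ℝ) < n := by exact_mod_cast hn
  have hlt : ∀ i j, pe M0 n i j < 1 := fun i j => min_lt_of_right_lt (by
    rw [div_lt_one (by linarith)]
    unfold M0
    split_ifs <;> linarith)
  have hpos : 0 < lik M0 s G := lt_of_lt_of_le (prod_pos fun e _ => by
    split_ifs
    · exact lt_min one_pos (div_pos (by simp [M0]) (by linarith))
    · exact sub_pos.2 (hlt _ _)) (hs fun _ => 0)
  have key : ∀ j, lik M0 (Function.update s v j) G = (∏ e : Pairs n, if e.1.1 = v ∨ e.1.2 = v then 1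
      else if G e then pe M0 n (s e.1.1) (s e.1.2) else 1 - pe M0 n (s e.1.1) (s e.1.2)) *
      (1 - pe M0 n j j) ^ #{w | w ≠ v ∧ s w = j} := by
    intro j
    have h1 := star (fun a b => 1 - pe M0 n (Function.update s v j a) (Function.update s v j b))
      (fun a b => by rw [pe_symm M0_symm]) v
    have h2 : (∏ w, if w = v then 1 else
        1 - pe M0 n (Function.update s v j v) (Function.update s v j w)) =
        (1 - pe M0 n j j) ^ #{w | w ≠ v ∧ s w = j} := by
      rw [← prod_const, prod_filter]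
      refine prod_congr rfl fun w _ => ?_
      by_cases a1 : w = v
      · simp [a1]
      · by_cases a2 : s w = j
        · simp [a1, a2]
        · simp [a1, a2, pe, M0, Ne.symm a2]
    rw [← h2, ← h1, ← prod_mul_distrib]
    refine prod_congr rfl fun e _ => ?_
    by_cases a1 : e.1.1 = v ∨ e.1.2 = v
    · simp only [a1, hv e a1, if_true, one_mul, Bool.false_eq_true, if_false]
    · simp only [a1, if_false, mul_one]
      rw [not_or] at a1
      rw [Function.update_of_ne a1.1, Function.update_of_ne a1.2]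
  obtain ⟨j, j1, j2⟩ : ∃ j : Fin 3, j ≠ s v ∧ j ≠ 2 := by
    generalize s v = i
    revert i
    decide
  have h1 := hs (Function.update s v j)
  have h2 := key (s v)
  rw [Function.update_eq_self] at h2
  rw [key j, h2] at h1
  rw [h2] at hpos
  have h3 := (mul_pos_iff_of_pos_right (pow_pos (sub_pos.2 (hlt _ _)) _)).1 hpos
  have h4 : pe M0 n j j ≤ pe M0 n (s v) (s v) := min_le_min_left _ (by
    refine div_le_div_of_nonneg_right ?_ (by linarith)
    simp only [M0, j2, if_true, if_false]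
    split_ifs <;> norm_num)
  have h5 := (le_of_mul_le_mul_left h1 h3).trans
    (pow_le_pow_left₀ (sub_pos.2 (hlt _ _)).le (sub_le_sub_left h4 1) _)
  have h6 : 0 < pe M0 n j j := lt_min one_pos (div_pos (by simp [M0, j2]) (by linarith))
  rw [pow_le_pow_iff_right_of_lt_one₀ (sub_pos.2 (hlt _ _)) (by linarith)] at h5
  have h7 : #{w | w ≠ v ∧ s w = s v} + #{w | w ≠ v ∧ s w = j} ≤ n - 1 := by
    rw [← card_union_of_disjoint (disjoint_filter.2 fun w _ a b => j1 (b.2.symm.trans a.2))]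
    refine (card_le_card (t := univ.erase v) fun w hw => ?_).trans (by simp)
    simp only [mem_union, mem_filter] at hw
    exact mem_erase.2 ⟨hw.elim (·.2.1) (·.2.1), mem_univ w⟩
  have h8 : #{w | s w = s v} ≤ #{w | w ≠ v ∧ s w = s v} + 1 := by
    refine le_trans (card_le_card fun w hw => ?_) (card_insert_le v _)
    by_cases a : w = v
    · simp [a]
    · simpa [a] using hw
  omega

theorem result : ∃ (π : Fin 3 → ℝ) (M : Fin 3 → Fin 3 → ℝ), (∀ i, 0 < π i) ∧ ∑ i, π i = 1 ∧
    (∀ i j, M i j = M j i) ∧ (∀ i j, 0 ≤ M i j) ∧ (∃ est, Achieves π M est) ∧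
    ∀ est, IsML M est → ¬ Achieves π M est ∧
      Tendsto (fun n => prob π M n fun σ G => (⨆ i, π i) - 1 / 20 ≤ ov (est n G) σ) atTop (𝓝 0) := by
  let π : Fin 3 → ℝ := ![4 / 5, 1 / 20, 3 / 20]
  have h0 : ∀ i, 0 < π i := fun i => by fin_cases i <;> simp [π]
  have h1 : ∑ i, π i = 1 := by simp [π, Fin.sum_univ_three]; norm_num
  have h2 : ⨆ i, π i = 4 / 5 := le_antisymm
    (ciSup_le fun i => by fin_cases i <;> simp [π] <;> norm_num)
    (le_ciSup (Finite.bddAbove_range π) 0)
  have hd : ∀ l s : Fin 3, s ≠ l → M0 l s = 0 := fun l s h => if_neg (Ne.symm h)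
  have v1 := var_lim h1 M0_symm 0 (hd 0) 0 (by simp)
  have v2 := var_lim h1 M0_symm 2 (hd 2) 0 (by simp)
  have v3 := var_lim h1 M0_symm 2 (hd 2) 1 (by simp)
  simp only [ind_zero, ind_one] at v1 v2 v3
  have e1 : 98 / 125 ≤ π 0 * Real.exp (-(π 0 * ((1 - 0) * M0 0 0))) := by
    have := Real.add_one_le_exp (-(π 0 * ((1 - 0) * M0 0 0)))
    simp [π, M0] at this ⊢
    linarith
  have e2 : π 2 * Real.exp (-(π 2 * ((1 - 0) * M0 2 2))) ≤ 3 / 80 := by
    have h : Real.exp (-(π 2 * ((1 - 0) * M0 2 2))) = (Real.exp 3)⁻¹ := by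
      rw [← Real.exp_neg]
      simp [π, M0]
    have := inv_anti₀ (by norm_num) (Real.add_one_le_exp 3)
    rw [h]
    simp only [π, Matrix.cons_val]
    linarith
  have e3 : π 2 * Real.exp (-(π 2 * ((1 - 1) * M0 2 2))) = 3 / 20 := by simp [π]
  rw [e3] at v3
  generalize π 0 * Real.exp (-(π 0 * ((1 - 0) * M0 0 0))) = m1 at v1 e1
  generalize π 2 * Real.exp (-(π 2 * ((1 - 0) * M0 2 2))) = m2 at v2 e2
  have W := fun E => whp (fun i => (h0 i).le) M0_nonneg E _ _ _ v1 v2 v3
  refine ⟨π, M0, h0, h1, M0_symm, M0_nonneg, ⟨fun n G v => if Iso G v then 0 else 2, 1 / 20,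
    by norm_num, ?_⟩, fun est hest => ?_⟩
  · have := (W (fun n σ G => ¬ (⨆ i, π i) + 1 / 20 ≤ ov (fun v => if Iso G v then 0 else 2) σ)
      ?_).const_sub 1
    · simpa only [← prob_compl h1, sub_zero] using this
    filter_upwards [eventually_gt_atTop 0] with n hn σ G a1 a2 a3
    have hn' : (0 : ℝ) < n := by exact_mod_cast hn
    have b1 : #{v | σ v = 0 ∧ Iso G v} + #{v | σ v = 2} ≤ #{v | σ v = 2 ∧ Iso G v} +
        univ.sup fun τ : Equiv.Perm (Fin 3) => #{v | τ (if Iso G v then 0 else 2) = σ v} := by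
      refine le_trans ?_ (Nat.add_le_add_left (le_sup (mem_univ 1)) _)
      rw [card_filter, card_filter, card_filter, card_filter, ← sum_add_distrib, ← sum_add_distrib]
      refine sum_le_sum fun v _ => ?_
      generalize σ v = i
      by_cases h : Iso G v <;> fin_cases i <;> simp [h]
    have b2 := div_le_div_of_nonneg_right ((Nat.cast_le (α := ℝ)).2 b1) hn'.le
    rw [Nat.cast_add, Nat.cast_add, add_div, add_div] at b2
    rw [not_not, h2, ov]
    linarith [abs_lt.1 a1, abs_lt.1 a2, abs_lt.1 a3]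
  · have t0 : Tendsto (fun n => prob π M0 n fun σ G => (⨆ i, π i) - 1 / 20 ≤ ov (est n G) σ)
        atTop (𝓝 0) := by
      refine W _ ?_
      filter_upwards [eventually_ge_atTop 100] with n hn σ G a1 _ _
      have hn' : (100 : ℝ) ≤ n := by exact_mod_cast hn
      have b1 : 2 * (univ.sup fun τ : Equiv.Perm (Fin 3) => #{v | τ (est n G v) = σ v}) +
          2 * #{v | σ v = 0 ∧ Iso G v} ≤ 3 * n + 1 := by
        obtain ⟨τ, -, hτ⟩ := exists_mem_eq_sup univ univ_nonempty
          fun τ : Equiv.Perm (Fin 3) => #{v | τ (est n G v) = σ v}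
        have c1 : #{v | τ (est n G v) = σ v} + #{v | σ v = 0 ∧ Iso G v} ≤
            #{v | τ (est n G v) = 0 ∧ Iso G v} + #(univ : Finset (Fin n)) := by
          simp only [card_filter, card_eq_sum_ones univ, ← sum_add_distrib]
          refine sum_le_sum fun v _ => ?_
          by_cases d1 : τ (est n G v) = σ v <;> by_cases d2 : σ v = 0 ∧ Iso G v <;> simp [d1, d2]
        have c2 : 2 * #{v | τ (est n G v) = 0 ∧ Iso G v} ≤ n + 1 := by
          rcases eq_empty_or_nonempty (univ.filter fun v => τ (est n G v) = 0 ∧ Iso G v) with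
            h | ⟨v, hv⟩
          · simp [h]
          · have hv' := (mem_filter.1 hv).2
            refine le_trans (Nat.mul_le_mul_left 2 (card_le_card fun w hw => ?_))
              (ml_bal (by omega) G _ (hest n G) v hv'.2)
            exact mem_filter.2 ⟨mem_univ w, τ.injective ((mem_filter.1 hw).2.1.trans hv'.1.symm)⟩
        rw [card_univ, Fintype.card_fin] at c1
        omega
      have b2 := (Nat.cast_le (α := ℝ)).2 b1
      push_cast at b2
      have b3 := (lt_div_iff₀ (by linarith : (0 : ℝ) < n)).1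
        (show m1 - 1 / 100 < (#{v | σ v = 0 ∧ Iso G v} : ℝ) / n by linarith [abs_lt.1 a1])
      rw [h2, ov, not_le, div_lt_iff₀ (by linarith)]
      nlinarith
    refine ⟨?_, t0⟩
    rintro ⟨ε, hε, t1⟩
    refine absurd (le_of_tendsto_of_tendsto' t1 t0 fun n => ?_) (by norm_num)
    refine sum_le_sum fun σ _ => sum_le_sum fun G _ => ?_
    split_ifs with d1 d2
    · exact le_rfl
    · exact absurd (by linarith) d2
    · exact mul_nonneg (prod_nonneg fun v _ => (h0 (σ v)).le) (lik_nonneg M0_nonneg σ G)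
    · exact le_rfl

end Pool.Agent.Results.MP_9b1654_pr.MLFails
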